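import Mathlib
import Pool.Agent.helper356_nill.Main

/-!
Nill's conjecture holds when the origin is deep inside the polytope: if `s` is a natural number
with `s ≥ (1 + ∑_{j = 1}^{n} (j!) ^ (2 / j)) / 2` and every facet of the smooth lattice polytope
`P` has lattice distance at least `β` from the origin, where `2 β ≥ s (2 s - 1)`, then `P ∩ -P`
contains a basis of the integer lattice.
-/

namespace Pool.Agent.Results.MP_5412de_co.DeepOrigin

open Matrix Pool.Agent.helper356_nill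

theorem result (n : ℕ) (P : Set (Fin n → ℝ)) (hP : IsLatticePolytope P) (hs : IsSmooth P)
    (h0 : (0 : Fin n → ℝ) ∈ interior P) (s β : ℕ)
    (hn : (1 + ∑ j ∈ Finset.Icc 1 n, (j.factorial : ℝ) ^ ((2 : ℝ) / j)) / 2 ≤ s)
    (hβs : s * (2 * s - 1) ≤ 2 * β)
    (hβ : ∀ u : Fin n → ℤ, IsFacetNormal P u → ∀ x ∈ faceOf P (toR u), (β : ℝ) ≤ toR u ⬝ᵥ x) :
    ∃ b : Module.Basis (Fin n) ℤ (Fin n → ℤ), ∀ i, toR (b i) ∈ P ∧ -toR (b i) ∈ P := by
  have hs1 : 1 ≤ s := by
    by_contra hcon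
    have h1 : s = 0 := by omega
    subst h1
    have h2 := cst_nonneg n
    have h3 : cst n ≤ 0 := by simpa [cst] using hn
    have h4 : (1 : ℝ) / 2 ≤ cst n := by
      rw [cst]
      have : (0 : ℝ) ≤ ∑ j ∈ Finset.Icc 1 n, (j.factorial : ℝ) ^ ((2 : ℝ) / j) :=
        Finset.sum_nonneg (fun j _ => by positivity)
      linarith
    linarith
  have hw := wide_inter hP hs h0 β s hs1 hβs (Or.inr hβ)
  obtain ⟨b, hb⟩ := basis_inter hP h0 hs1 (k := 1) le_rfl hw (by
    rw [cst]; push_cast; linarith)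
  refine ⟨b, fun i => ?_⟩
  obtain ⟨y, hy, hy', hby⟩ := hb i
  rw [Nat.cast_one, one_smul] at hby
  rw [hby]
  exact ⟨hy, hy'⟩

end Pool.Agent.Results.MP_5412de_co.DeepOrigin
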