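import Mathlib
import Pool.Agent.helper356_nill.Main

/-!
For every smooth lattice polytope `P` of dimension `n` with the origin in its interior and every
natural number `k ≥ (1 + ∑_{j = 1}^{n} (j!) ^ (2 / j)) / 2`, the set `kP ∩ -kP` contains a basis
of the integer lattice.
-/

namespace Pool.Agent.Results.MP_5412de_co.DilateBasis

open Matrix Pool.Agent.helper356_nill

open scoped Pointwise in
theorem result (n : ℕ) (P : Set (Fin n → ℝ)) (hP : IsLatticePolytope P) (hs : IsSmooth P)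
    (h0 : (0 : Fin n → ℝ) ∈ interior P) (k : ℕ)
    (hk : (1 + ∑ j ∈ Finset.Icc 1 n, (j.factorial : ℝ) ^ ((2 : ℝ) / j)) / 2 ≤ k) :
    ∃ b : Module.Basis (Fin n) ℤ (Fin n → ℤ), ∀ i,
      toR (b i) ∈ (k : ℝ) • P ∧ -toR (b i) ∈ (k : ℝ) • P := by
  have hk1 : 1 ≤ k := by
    by_contra hcon
    have h1 : k = 0 := by omega
    subst h1
    have : (0 : ℝ) ≤ ∑ j ∈ Finset.Icc 1 n, (j.factorial : ℝ) ^ ((2 : ℝ) / j) :=
      Finset.sum_nonneg (fun j _ => by positivity)
    push_cast at hk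
    linarith
  have hw := wide_inter hP hs h0 1 1 le_rfl (by norm_num) (Or.inl le_rfl)
  obtain ⟨b, hb⟩ := basis_inter hP h0 (s := 1) le_rfl hk1 hw (by
    rw [cst]; push_cast; linarith)
  refine ⟨b, fun i => ?_⟩
  obtain ⟨y, hy, hy', hby⟩ := hb i
  rw [hby]
  refine ⟨Set.smul_mem_smul_set hy, ?_⟩
  rw [← smul_neg]
  exact Set.smul_mem_smul_set hy'

end Pool.Agent.Results.MP_5412de_co.DilateBasis
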