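import Mathlib
import Pool.Agent.helper356_nill.Structure
import Pool.Agent.helper356_nill.Main

/-!
Nill's conjecture holds for every smooth lattice polytope which has a facet at lattice distance one
from the origin that is a product of dilated unimodular simplices (for instance a simplex or a
box).
-/

namespace Pool.Agent.Results.MP_5412de_co.ProductFacet

open Matrix Pool.Agent.helper356_nill

theorem result (n : ℕ) (P : Set (Fin n → ℝ)) (hP : IsLatticePolytope P) (hs : IsSmooth P)
    (h0 : (0 : Fin n → ℝ) ∈ interior P) (h : Fin n → ℤ) (hh : IsFacetNormal P h)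
    (h1 : ∀ x ∈ faceOf P (toR h), toR h ⬝ᵥ x = 1)
    (hprod : IsProductOfSimplices (faceOf P (toR h))) :
    ∃ b : Module.Basis (Fin n) ℤ (Fin n → ℤ), ∀ i, toR (b i) ∈ P ∧ -toR (b i) ∈ P := by
  obtain ⟨V, hV⟩ := hP
  exact basis_of_product hV (nonempty_of_interior hV h0) h0 hs hh h1 hprod

end Pool.Agent.Results.MP_5412de_co.ProductFacet
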