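import Mathlib
import Pool.Agent.helper356_nill.Main

/-!
Every smooth lattice polytope `P` with the origin in its interior satisfies: for each nonzero
integer vector `l` the symmetric part `P ∩ -P` contains a (real) point `x` with `⟨l, x⟩ ≥ 1`.
Equivalently, the lattice width of `P ∩ -P` is at least two.
-/

namespace Pool.Agent.Results.MP_5412de_co.WidthTwo

open Matrix Pool.Agent.helper356_nill

theorem result (n : ℕ) (P : Set (Fin n → ℝ)) (hP : IsLatticePolytope P) (hs : IsSmooth P)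
    (h0 : (0 : Fin n → ℝ) ∈ interior P) (l : Fin n → ℤ) (hl : l ≠ 0) :
    ∃ x : Fin n → ℝ, x ∈ P ∧ -x ∈ P ∧ 1 ≤ toR l ⬝ᵥ x := by
  obtain ⟨x, hx, hxl⟩ := wide_inter hP hs h0 1 1 le_rfl (by norm_num) (Or.inl le_rfl) l hl
  exact ⟨x, hx.1, hx.2, by exact_mod_cast hxl⟩

end Pool.Agent.Results.MP_5412de_co.WidthTwo
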